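import Pool.Agent.W36.FD.FD8

set_option autoImplicit false

/-!
Fourier structure of the invariant sets of the `3x+k` maps, for every `k` prime to `6`.

Up to an error that has small correlation with all exponential functions, uniformly in the frequency
and in the set, the indicator function of an invariant set of the `3x+k` map is a function of the
residue modulo `k` which does not change when the residue is multiplied by `2` or `3`. So the only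
obstructions to equidistribution that linear equations in three unknowns see are these congruences:
numbers of solutions in invariant sets (for example basins of cycles, or the set of integers with
eventually periodic orbit) are given by local densities modulo `k`.
-/

namespace Pool.Agent.Results.MP_7f88e4_nt.FourierStructure

open Filter Topology

/-- the `3x+k` map on the integers -/
def T (k x : ℤ) : ℤ := if x % 2 = 0 then x / 2 else (3 * x + k) / 2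

/-- the orbit of `n` is eventually periodic -/
def EvPer (k n : ℤ) : Prop := ∃ m p : ℕ, 1 ≤ p ∧ (T k)^[m + p] n = (T k)^[m] n

/-- `S` is invariant under the `3x+k` map and its inverse -/
def Invariant (k : ℤ) (S : Set ℤ) : Prop := ∀ x : ℤ, x ∈ S ↔ T k x ∈ S

/-- `a` and `b` agree modulo `k` up to a factor `2 ^ i * 3 ^ j`. -/
def Rel (k a b : ℤ) : Prop := ∃ i j : ℕ, a ≡ 2 ^ i * 3 ^ j * b [ZMOD k]

/-- `φ` gives the densities of `S`, on the side `s`, relative to the classes modulo `k`: it has values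
in `[0, 1]`, it depends only on the residue modulo `k` up to factors `2` and `3`, the elements of `S`
which are congruent to `a` modulo `k` have natural density `φ a / |k|` on the side `s`, and `φ a` is
positive if `S` has an element of sign `s` prime to `3` in a class related to that of `a`. -/
def LocalDensity (k s : ℤ) (S : Set ℤ) (φ : ℤ → ℝ) : Prop :=
  (∀ a : ℤ, 0 ≤ φ a ∧ φ a ≤ 1) ∧ (∀ a b : ℤ, Rel k a b → φ a = φ b) ∧
  (∀ a : ℤ, Tendsto (fun N : ℕ => ({n : ℤ | 0 < s * n ∧ s * n ≤ N ∧ n ∈ S ∧ n ≡ a [ZMOD k]}.ncard : ℝ) / N)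
    atTop (𝓝 (φ a / k.natAbs))) ∧
  (∀ a x : ℤ, x ∈ S → 0 < s * x → ¬ (3 : ℤ) ∣ x → Rel k a x → 0 < φ a)

/-- A bounded function on the integers that has the same value at any two integers which are congruent
modulo `k` and whose orbits are at some time at the same point. -/
def Synchronous (k : ℤ) (F : ℤ → ℝ) : Prop :=
  (∀ x, |F x| ≤ 1) ∧ ∀ (j : ℕ) (x y : ℤ), (T k)^[j] x = (T k)^[j] y → x ≡ y [ZMOD k] → F x = F y

/-- `exp (2 π i θ)` -/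
noncomputable def e (θ : ℝ) : ℂ := Complex.exp (2 * Real.pi * θ * Complex.I)

/-- The elements `x` of `S` of sign `s` with `M < |x| ≤ N`. -/
def Part (s : ℤ) (M N : ℕ) (S : Set ℤ) : Set ℤ := {x : ℤ | x ∈ S ∧ (M : ℤ) < s * x ∧ s * x ≤ N}

/-- The set of solutions of `a x + b y + c z = m` with `x ∈ X`, `y ∈ Y`, `z ∈ Z`. -/
def SolSet (a b c m : ℤ) (X Y Z : Set ℤ) : Set (ℤ × ℤ × ℤ) :=
  {p : ℤ × ℤ × ℤ | p.1 ∈ X ∧ p.2.1 ∈ Y ∧ p.2.2 ∈ Z ∧ a * p.1 + b * p.2.1 + c * p.2.2 = m}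

/-- The number of solutions. -/
noncomputable def Sol (a b c m : ℤ) (X Y Z : Set ℤ) : ℕ := (SolSet a b c m X Y Z).ncard

/-- The number of pairs `x ∈ X`, `y ∈ Y` of integers of sign `s` with `x + y = s n`. -/
noncomputable def Rep (s : ℤ) (n : ℕ) (X Y : Set ℤ) : ℕ :=
  {p : ℤ × ℤ | p.1 ∈ X ∧ p.2 ∈ Y ∧ 0 < s * p.1 ∧ 0 < s * p.2 ∧ p.1 + p.2 = s * n}.ncard

/-- The mean of `φ (s u) ψ (s (n - u))` over the residues `u` modulo `k`. -/
noncomputable def MeanRep (k s : ℤ) (φ ψ : ℤ → ℝ) (n : ℤ) : ℝ :=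
  (∑ u ∈ Finset.range k.natAbs, φ (s * (u : ℕ)) * ψ (s * (n - (u : ℕ)))) / k.natAbs

/-- The number of `x ∈ X` of sign `s` with `|x| ≤ N` and `x + s h ∈ Y`. -/
noncomputable def Corr (s : ℤ) (N h : ℕ) (X Y : Set ℤ) : ℕ :=
  {x : ℤ | x ∈ X ∧ x + s * h ∈ Y ∧ 0 < s * x ∧ s * x ≤ N}.ncard

/-- The mean of `φ (s u) ψ (s (u + h))` over the residues `u` modulo `k`. -/
noncomputable def MeanCorr (k s : ℤ) (φ ψ : ℤ → ℝ) (h : ℤ) : ℝ :=
  (∑ u ∈ Finset.range k.natAbs, φ (s * (u : ℕ)) * ψ (s * ((u : ℕ) + h))) / k.natAbs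

open Pool.Agent.W41 Pool.Agent.H499R2.ND Pool.Agent.H499R2.CO Pool.Agent.W41.FU Pool.Agent.W36.FD

theorem inv_of {k : ℤ} {S : Set ℤ} (hS : Invariant k S) : Inv k S := hS

theorem dens_iff {k s : ℤ} (hs : s = 1 ∨ s = -1) {S : Set ℤ} {φ : ℤ → ℝ} :
    DD s S k.natAbs (fun c => φ c / (k.natAbs : ℝ)) ↔
    (∀ a : ℤ, Tendsto (fun N : ℕ => ({n : ℤ | 0 < s * n ∧ s * n ≤ N ∧ n ∈ S ∧ n ≡ a [ZMOD k]}.ncard : ℝ) / N)
      atTop (𝓝 (φ a / k.natAbs))) := by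
  have e1 : ∀ (a : ℤ) (N : ℕ), {n : ℤ | 0 < s * n ∧ s * n ≤ N ∧ n ∈ S ∧ n ≡ a [ZMOD k]}.ncard
      = cA s S k.natAbs a N := by
    intro a N
    rw [← cA_ncard hs]
    congr 1
    ext n
    have : n ≡ a [ZMOD k] ↔ n ≡ a [ZMOD (k.natAbs : ℤ)] := by
      rw [Int.modEq_iff_dvd, Int.modEq_iff_dvd, Int.natAbs_dvd]
    simp only [Set.mem_ofPred_eq, this]
  unfold DD
  simp only [e1]

theorem local_phi {k s : ℤ} (hs : s = 1 ∨ s = -1) {S : Set ℤ} {φ : ℤ → ℝ} (h : LocalDensity k s S φ) :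
    IsPhi k s S φ := ⟨h.1, h.2.1, (dens_iff hs).2 h.2.2.1⟩

theorem exists_local {k : ℤ} (hk : k % 6 = 1 ∨ k % 6 = 5) {s : ℤ} (hs : s = 1 ∨ s = -1) {S : Set ℤ}
    (hS : Invariant k S) : ∃ φ : ℤ → ℝ, LocalDensity k s S φ := by
  obtain ⟨φ, ⟨h1, h2, h3⟩, h4⟩ := exists_phi hk hs (inv_of hS)
  exact ⟨φ, h1, h2, (dens_iff hs).1 h3, h4⟩

theorem T_side_iter {k : ℤ} (hk : Odd k) {s : ℤ} (hs : s = 1 ∨ s = -1) (j : ℕ) (x : ℤ) :
    (T k)^[j] (s * x) = s * (Tz (s * k))^[j] x := by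
  have h : (Td (s * k))^[j] x = s * (Td k)^[j] (s * x) := Td_side hk hs j x
  have h2 : s * (Td (s * k))^[j] x = (Td k)^[j] (s * x) := by rw [h, s_mul hs]
  exact h2.symm

theorem synchronous_same {k : ℤ} (hk : Odd k) {s : ℤ} (hs : s = 1 ∨ s = -1) {F : ℤ → ℝ} (hF : Synchronous k F) :
    (fun x => F (s * x)) ∈ SameD (s * k) := by
  refine ⟨fun x => hF.1 _, fun j x y h hd => hF.2 j _ _ ?_ ?_⟩
  · rw [T_side_iter hk hs, T_side_iter hk hs, h]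
  · have h2 : k ∣ s * x - s * y := by
      rw [← mul_sub]
      exact ((Dvd.intro_left s rfl : k ∣ s * k).trans hd).mul_left s
    exact (Int.modEq_iff_dvd.2 h2).symm

theorem e_ee (α : ℝ) (n : ℕ) : e (α * n) = ee α (n : ℕ) := by
  unfold e ee
  congr 1
  push_cast
  ring

theorem sum_EE (f : ℤ → ℝ) (N : ℕ) (α : ℝ) :
    ∑ n ∈ Finset.Icc 1 N, (f (n : ℕ) : ℂ) * e (α * n) = EE f N α := by
  unfold EE
  apply Finset.sum_congr rfl
  intro n _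
  rw [e_ee]

theorem sol_eq {s t v : ℤ} (hs : s = 1 ∨ s = -1) (ht : t = 1 ∨ t = -1) (hv : v = 1 ∨ v = -1) (S S' S'' : Set ℤ)
    {X M₁ M₂ M₃ N₁ N₂ N₃ : ℕ} (h1 : N₁ ≤ X) (h2 : N₂ ≤ X) (h3 : N₃ ≤ X) (a b c m : ℤ) :
    (Sol a b c m (Part s M₁ N₁ S) (Part t M₂ N₂ S') (Part v M₃ N₃ S'') : ℝ) =
      TT (res M₁ N₁ (ind s S)) (res M₂ N₂ (ind t S')) (res M₃ N₃ (ind v S'')) X (a * s) (b * t) (c * v) m := by
  have hres : ∀ (M N : ℕ) (s : ℤ) (S : Set ℤ) (x : ℤ), res M N (ind s S) x =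
      @ite ℝ (((M : ℤ) < x ∧ x ≤ N) ∧ s * x ∈ S) (Classical.propDecidable _) 1 0 := by
    intro M N s S x
    unfold res ind
    by_cases h1 : (M : ℤ) < x ∧ x ≤ N <;> by_cases h2 : s * x ∈ S <;> simp [h1, h2]
  rw [TT_count (P := fun x => ((M₁ : ℤ) < x ∧ x ≤ N₁) ∧ s * x ∈ S) (Q := fun x => ((M₂ : ℤ) < x ∧ x ≤ N₂) ∧ t * x ∈ S')
    (R := fun x => ((M₃ : ℤ) < x ∧ x ≤ N₃) ∧ v * x ∈ S'') (hres M₁ N₁ s S) (hres M₂ N₂ t S') (hres M₃ N₃ v S'')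
    (fun x hx => by omega) (fun x hx => by omega) (fun x hx => by omega)]
  unfold Sol SolSet
  congr 1
  have e1 : {p : ℤ × ℤ × ℤ | p.1 ∈ Part s M₁ N₁ S ∧ p.2.1 ∈ Part t M₂ N₂ S' ∧ p.2.2 ∈ Part v M₃ N₃ S'' ∧
      a * p.1 + b * p.2.1 + c * p.2.2 = m} =
      (fun p : ℤ × ℤ × ℤ => (s * p.1, t * p.2.1, v * p.2.2)) '' {p : ℤ × ℤ × ℤ | (((M₁ : ℤ) < p.1 ∧ p.1 ≤ N₁) ∧ s * p.1 ∈ S) ∧
        (((M₂ : ℤ) < p.2.1 ∧ p.2.1 ≤ N₂) ∧ t * p.2.1 ∈ S') ∧ (((M₃ : ℤ) < p.2.2 ∧ p.2.2 ≤ N₃) ∧ v * p.2.2 ∈ S'') ∧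
        a * s * p.1 + b * t * p.2.1 + c * v * p.2.2 = m} := by
    ext ⟨x, y, z⟩
    simp only [Set.mem_ofPred_eq, Set.mem_image, Prod.mk.injEq, Prod.exists, Part]
    constructor
    · rintro ⟨⟨a1, a2, a3⟩, ⟨b1, b2, b3⟩, ⟨c1, c2, c3⟩, h⟩
      refine ⟨s * x, t * y, v * z, ⟨⟨⟨a2, a3⟩, ?_⟩, ⟨⟨b2, b3⟩, ?_⟩, ⟨⟨c2, c3⟩, ?_⟩, ?_⟩, s_mul hs x, s_mul ht y, s_mul hv z⟩
      · rwa [s_mul hs]
      · rwa [s_mul ht]
      · rwa [s_mul hv]
      · rw [mul_assoc, s_mul hs, mul_assoc, s_mul ht, mul_assoc, s_mul hv]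
        exact h
    · rintro ⟨x', y', z', ⟨⟨⟨a2, a3⟩, a1⟩, ⟨⟨b2, b3⟩, b1⟩, ⟨⟨c2, c3⟩, c1⟩, h⟩, rfl, rfl, rfl⟩
      rw [s_mul hs, s_mul ht, s_mul hv]
      refine ⟨⟨a1, a2, a3⟩, ⟨b1, b2, b3⟩, ⟨c1, c2, c3⟩, ?_⟩
      rw [← mul_assoc, ← mul_assoc, ← mul_assoc]
      exact h
  rw [e1, Set.ncard_image_of_injective]
  rintro ⟨x, y, z⟩ ⟨x', y', z'⟩ h
  simp only [Prod.mk.injEq] at h
  obtain ⟨h1, h2, h3⟩ := h
  have k1 := congrArg (fun x => s * x) h1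
  have k2 := congrArg (fun x => t * x) h2
  have k3 := congrArg (fun x => v * x) h3
  simp only [s_mul hs, s_mul ht, s_mul hv] at k1 k2 k3
  rw [k1, k2, k3]

/-- the weighted number of solutions -/
theorem wsol_eq {s t v : ℤ} (hs : s = 1 ∨ s = -1) (ht : t = 1 ∨ t = -1) (hv : v = 1 ∨ v = -1) (φ φ' φ'' : ℤ → ℝ)
    {X M₁ M₂ M₃ N₁ N₂ N₃ : ℕ} (h1 : N₁ ≤ X) (h2 : N₂ ≤ X) (h3 : N₃ ≤ X) (a b c m : ℤ) :
    ∑ᶠ p ∈ SolSet a b c m (Part s M₁ N₁ Set.univ) (Part t M₂ N₂ Set.univ) (Part v M₃ N₃ Set.univ),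
      φ p.1 * φ' p.2.1 * φ'' p.2.2 =
      TT (res M₁ N₁ (sph s φ)) (res M₂ N₂ (sph t φ')) (res M₃ N₃ (sph v φ'')) X (a * s) (b * t) (c * v) m := by
  classical
  have e1 : SolSet a b c m (Part s M₁ N₁ Set.univ) (Part t M₂ N₂ Set.univ) (Part v M₃ N₃ Set.univ) =
      ((((Finset.Icc 1 X) ×ˢ (Finset.Icc 1 X) ×ˢ (Finset.Icc 1 X)).filter (fun p : ℕ × ℕ × ℕ =>
        (M₁ < p.1 ∧ p.1 ≤ N₁) ∧ (M₂ < p.2.1 ∧ p.2.1 ≤ N₂) ∧ (M₃ < p.2.2 ∧ p.2.2 ≤ N₃) ∧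
        a * s * (p.1 : ℤ) + b * t * (p.2.1 : ℤ) + c * v * (p.2.2 : ℤ) = m)).image
        (fun p : ℕ × ℕ × ℕ => (s * (p.1 : ℤ), (t * (p.2.1 : ℤ), v * (p.2.2 : ℤ)))) : Finset (ℤ × ℤ × ℤ)) := by
    ext ⟨x, y, z⟩
    simp only [SolSet, Part, Set.mem_univ, true_and, Set.mem_ofPred_eq, Finset.coe_image, Finset.coe_filter,
      Set.mem_image, Finset.mem_product, Finset.mem_Icc, Prod.mk.injEq, Prod.exists]
    constructor
    · rintro ⟨⟨a1, a2⟩, ⟨b1, b2⟩, ⟨c1, c2⟩, h⟩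
      refine ⟨(s * x).toNat, (t * y).toNat, (v * z).toNat, ?_, ?_, ?_, ?_⟩
      · rw [Int.toNat_of_nonneg (by omega), Int.toNat_of_nonneg (by omega), Int.toNat_of_nonneg (by omega)]
        refine ⟨⟨by omega, by omega, by omega⟩, by omega, by omega, by omega, ?_⟩
        rw [mul_assoc, s_mul hs, mul_assoc, s_mul ht, mul_assoc, s_mul hv]
        exact h
      · rw [Int.toNat_of_nonneg (by omega), s_mul hs]
      · rw [Int.toNat_of_nonneg (by omega), s_mul ht]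
      · rw [Int.toNat_of_nonneg (by omega), s_mul hv]
    · rintro ⟨x', y', z', ⟨-, a1, b1, c1, h⟩, rfl, rfl, rfl⟩
      rw [s_mul hs, s_mul ht, s_mul hv]
      refine ⟨⟨by omega, by omega⟩, ⟨by omega, by omega⟩, ⟨by omega, by omega⟩, ?_⟩
      rw [← mul_assoc, ← mul_assoc, ← mul_assoc]
      exact h
  rw [e1, finsum_mem_coe_finset, Finset.sum_image]
  · rw [Finset.sum_filter, Finset.sum_product]
    unfold TT
    apply Finset.sum_congr rfl; intro x hx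
    rw [Finset.sum_product]
    apply Finset.sum_congr rfl; intro y hy
    apply Finset.sum_congr rfl; intro z hz
    unfold res sph
    by_cases h0 : a * s * (x : ℤ) + b * t * (y : ℤ) + c * v * (z : ℤ) = m
    · rw [if_pos h0]
      by_cases g1 : (M₁ < x ∧ x ≤ N₁)
      · have g1' : ((M₁ : ℤ) < (x : ℕ) ∧ ((x : ℕ) : ℤ) ≤ N₁) := by omega
        rw [if_pos g1']
        by_cases g2 : (M₂ < y ∧ y ≤ N₂)
        · have g2' : ((M₂ : ℤ) < (y : ℕ) ∧ ((y : ℕ) : ℤ) ≤ N₂) := by omega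
          rw [if_pos g2']
          by_cases g3 : (M₃ < z ∧ z ≤ N₃)
          · have g3' : ((M₃ : ℤ) < (z : ℕ) ∧ ((z : ℕ) : ℤ) ≤ N₃) := by omega
            rw [if_pos g3', if_pos ⟨g1, g2, g3, h0⟩]
          · have g3' : ¬ ((M₃ : ℤ) < (z : ℕ) ∧ ((z : ℕ) : ℤ) ≤ N₃) := by omega
            rw [if_neg g3', if_neg (fun h => g3 h.2.2.1), mul_zero]
        · have g2' : ¬ ((M₂ : ℤ) < (y : ℕ) ∧ ((y : ℕ) : ℤ) ≤ N₂) := by omega
          rw [if_neg g2', if_neg (fun h => g2 h.2.1), mul_zero, zero_mul]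
      · have g1' : ¬ ((M₁ : ℤ) < (x : ℕ) ∧ ((x : ℕ) : ℤ) ≤ N₁) := by omega
        rw [if_neg g1', if_neg (fun h => g1 h.1), zero_mul, zero_mul]
    · rw [if_neg h0, if_neg (fun h => h0 h.2.2.2)]
  · rintro ⟨x, y, z⟩ _ ⟨x', y', z'⟩ _ h
    simp only [Prod.mk.injEq] at h
    obtain ⟨h1, h2, h3⟩ := h
    have k1 := congrArg (fun x => s * x) h1
    have k2 := congrArg (fun x => t * x) h2
    have k3 := congrArg (fun x => v * x) h3
    simp only [s_mul hs, s_mul ht, s_mul hv, Nat.cast_inj] at k1 k2 k3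
    rw [k1, k2, k3]

/-- linear equations in three invariant sets -/
theorem linear {k : ℤ} (hk : k % 6 = 1 ∨ k % 6 = 5) {s t v : ℤ} (hs : s = 1 ∨ s = -1) (ht : t = 1 ∨ t = -1)
    (hv : v = 1 ∨ v = -1) {ε : ℝ} (hε : 0 < ε) :
    ∃ N₀ : ℕ, 1 ≤ N₀ ∧ ∀ S S' S'' : Set ℤ, Invariant k S → Invariant k S' → Invariant k S'' →
    ∀ φ φ' φ'' : ℤ → ℝ, LocalDensity k s S φ → LocalDensity k t S' φ' → LocalDensity k v S'' φ'' →
    ∀ N : ℕ, N₀ ≤ N → ∀ N₁ N₂ N₃ : ℕ, N₁ ≤ N → N₂ ≤ N → N₃ ≤ N → ∀ M₁ M₂ M₃ : ℕ, M₁ ≤ N₁ → M₂ ≤ N₂ → M₃ ≤ N₃ →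
    ∀ a b c m : ℤ, a ≠ 0 → b ≠ 0 → c ≠ 0 →
    |(Sol a b c m (Part s M₁ N₁ S) (Part t M₂ N₂ S') (Part v M₃ N₃ S'') : ℝ)
      - ∑ᶠ p ∈ SolSet a b c m (Part s M₁ N₁ Set.univ) (Part t M₂ N₂ Set.univ) (Part v M₃ N₃ Set.univ),
        φ p.1 * φ' p.2.1 * φ'' p.2.2| ≤ ε * N ^ 2 := by
  obtain ⟨N0, hN0, H⟩ := solutions hk hs ht hv (show 0 < min ε 1 from lt_min hε one_pos) (min_le_right _ _)
  refine ⟨N0, hN0, ?_⟩
  intro S S' S'' hS hS' hS'' φ φ' φ'' hφ hφ' hφ'' N hN N₁ N₂ N₃ hN1 hN2 hN3 M₁ M₂ M₃ hM1 hM2 hM3 a b c m ha hb hc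
  rw [sol_eq hs ht hv S S' S'' hN1 hN2 hN3, wsol_eq hs ht hv φ φ' φ'' hN1 hN2 hN3]
  have h0 : ∀ {s : ℤ}, (s = 1 ∨ s = -1) → s ≠ 0 := by
    rintro s (rfl | rfl) <;> norm_num
  refine (H S S' S'' (inv_of hS) (inv_of hS') (inv_of hS'') φ φ' φ'' (local_phi hs hφ) (local_phi ht hφ')
    (local_phi hv hφ'') N hN N₁ N₂ N₃ hN1 hN2 hN3 M₁ M₂ M₃ hM1 hM2 hM3 (a * s) (b * t) (c * v) m
    (mul_ne_zero ha (h0 hs)) (mul_ne_zero hb (h0 ht)) (mul_ne_zero hc (h0 hv))).trans ?_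
  exact mul_le_mul_of_nonneg_right (min_le_left _ _) (by positivity)

/-- many solutions of homogeneous equations -/
theorem many {k : ℤ} (hk : k % 6 = 1 ∨ k % 6 = 5) {s : ℤ} (hs : s = 1 ∨ s = -1) {a b c : ℕ} (ha : 0 < a)
    (hb : 0 < b) (hc : 0 < c) {S S' S'' : Set ℤ} (hS : Invariant k S) (hS' : Invariant k S') (hS'' : Invariant k S'')
    {x₀ y₀ z₀ : ℤ} (hx : x₀ ∈ S) (hx0 : 0 < s * x₀) (hx3 : ¬ (3 : ℤ) ∣ x₀) (hy : y₀ ∈ S') (hy0 : 0 < s * y₀)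
    (hy3 : ¬ (3 : ℤ) ∣ y₀) (hz : z₀ ∈ S'') (hz0 : 0 < s * z₀) (hz3 : ¬ (3 : ℤ) ∣ z₀) {x₁ y₁ z₁ : ℤ}
    (h1 : Rel k x₁ x₀) (h2 : Rel k y₁ y₀) (h3 : Rel k z₁ z₀) (heq : a * x₁ + b * y₁ = c * z₁) :
    ∃ κ : ℝ, 0 < κ ∧ ∃ N₀ : ℕ, ∀ N : ℕ, N₀ ≤ N →
    κ * N ^ 2 ≤ Sol a b (-c) 0 (Part s 0 N S) (Part s 0 N S') (Part s 0 N S'') := by
  have hd1 : 1 ≤ k.natAbs := by omega
  obtain ⟨φ, hφ⟩ := exists_local hk hs hS
  obtain ⟨φ', hφ'⟩ := exists_local hk hs hS'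
  obtain ⟨φ'', hφ''⟩ := exists_local hk hs hS''
  have rr : ∀ x : ℤ, Rel k x x := fun x => ⟨0, 0, by simp⟩
  have p1 : 0 < φ x₀ := hφ.2.2.2 x₀ x₀ hx hx0 hx3 (rr _)
  have p2 : 0 < φ' y₀ := hφ'.2.2.2 y₀ y₀ hy hy0 hy3 (rr _)
  have p3 : 0 < φ'' z₀ := hφ''.2.2.2 z₀ z₀ hz hz0 hz3 (rr _)
  obtain ⟨W, hW, N1, hN1⟩ := many_w hd1 hs ha hb hc (local_phi hs hφ) (local_phi hs hφ') (local_phi hs hφ'') h1 h2 h3 heq
  have hWR : (0 : ℝ) < W := by exact_mod_cast hW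
  set P : ℝ := φ x₀ * φ' y₀ * φ'' z₀ with hP
  have hP0 : 0 < P := by positivity
  set κ : ℝ := P / (2 * (4 * W) ^ 2) with hκ
  have hκ0 : 0 < κ := by positivity
  obtain ⟨N0, hN0, H⟩ := linear hk hs hs hs hκ0
  refine ⟨κ, hκ0, N0 + N1, fun N hN => ?_⟩
  have h4 := H S S' S'' hS hS' hS'' φ φ' φ'' hφ hφ' hφ'' N (by omega) N N N le_rfl le_rfl le_rfl 0 0 0
    (by omega) (by omega) (by omega) a b (-c) 0 (by omega) (by omega) (by omega)
  rw [wsol_eq hs hs hs φ φ' φ'' (X := N) le_rfl le_rfl le_rfl] at h4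
  have h5 := hN1 N (by omega)
  have h8 := (abs_le.1 h4).1
  have h10 : ((N : ℝ) / (4 * W)) ^ 2 * P = 2 * (κ * N ^ 2) := by
    rw [hκ]
    field_simp
  rw [h10] at h5
  linarith

/-- sums of three -/
theorem three {k : ℤ} (hk : k % 6 = 1 ∨ k % 6 = 5) {s : ℤ} (hs : s = 1 ∨ s = -1) {S S' S'' : Set ℤ}
    (hS : Invariant k S) (hS' : Invariant k S') (hS'' : Invariant k S'')
    {x₀ y₀ z₀ : ℤ} (hx : x₀ ∈ S) (hx0 : 0 < s * x₀) (hx3 : ¬ (3 : ℤ) ∣ x₀) (hy : y₀ ∈ S') (hy0 : 0 < s * y₀)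
    (hy3 : ¬ (3 : ℤ) ∣ y₀) (hz : z₀ ∈ S'') (hz0 : 0 < s * z₀) (hz3 : ¬ (3 : ℤ) ∣ z₀) :
    ∃ N₀ : ℕ, ∀ n : ℕ, N₀ ≤ n → (∃ u v w : ℤ, Rel k u x₀ ∧ Rel k v y₀ ∧ Rel k w z₀ ∧ u + v + w ≡ s * n [ZMOD k]) →
    ∃ x ∈ S, ∃ y ∈ S', ∃ z ∈ S'', 0 < s * x ∧ 0 < s * y ∧ 0 < s * z ∧ x + y + z = s * n := by
  have hd1 : 1 ≤ k.natAbs := by omega
  obtain ⟨φ, hφ⟩ := exists_local hk hs hS
  obtain ⟨φ', hφ'⟩ := exists_local hk hs hS'
  obtain ⟨φ'', hφ''⟩ := exists_local hk hs hS''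
  have rr : ∀ x : ℤ, Rel k x x := fun x => ⟨0, 0, by simp⟩
  have p1 : 0 < φ x₀ := hφ.2.2.2 x₀ x₀ hx hx0 hx3 (rr _)
  have p2 : 0 < φ' y₀ := hφ'.2.2.2 y₀ y₀ hy hy0 hy3 (rr _)
  have p3 : 0 < φ'' z₀ := hφ''.2.2.2 z₀ z₀ hz hz0 hz3 (rr _)
  obtain ⟨W, hW, N1, hN1⟩ := three_w hd1 hs (local_phi hs hφ) (local_phi hs hφ') (local_phi hs hφ'')
    (x0 := x₀) (y0 := y₀) (z0 := z₀)
  have hWR : (0 : ℝ) < W := by exact_mod_cast hW
  set P : ℝ := φ x₀ * φ' y₀ * φ'' z₀ with hP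
  have hP0 : 0 < P := by positivity
  set κ : ℝ := P / (2 * (2 * W) ^ 2) with hκ
  have hκ0 : 0 < κ := by positivity
  obtain ⟨N0, hN0, H⟩ := linear hk hs hs hs hκ0
  refine ⟨N0 + N1, fun N hN huvw => ?_⟩
  have h4 := H S S' S'' hS hS' hS'' φ φ' φ'' hφ hφ' hφ'' N (by omega) N N N le_rfl le_rfl le_rfl 0 0 0
    (by omega) (by omega) (by omega) 1 1 1 (s * N) (by omega) (by omega) (by omega)
  rw [wsol_eq hs hs hs φ φ' φ'' (X := N) le_rfl le_rfl le_rfl] at h4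
  obtain ⟨u, v, w, r1, r2, r3, r4⟩ := huvw
  have h5 := hN1 N (by omega) ⟨u, v, w, r1, r2, r3, r4.symm.dvd⟩
  have h8 := (abs_le.1 h4).1
  have h10 : ((N : ℝ) / (2 * W)) ^ 2 * P = 2 * (κ * N ^ 2) := by
    rw [hκ]
    field_simp
  rw [h10] at h5
  have hNp : (0 : ℝ) < N := by exact_mod_cast (by omega : 0 < N)
  have h11 : 0 < κ * (N : ℝ) ^ 2 := by positivity
  have h12 : (0 : ℝ) < Sol 1 1 1 (s * N) (Part s 0 N S) (Part s 0 N S') (Part s 0 N S'') := by linarith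
  have h13 : (SolSet 1 1 1 (s * N) (Part s 0 N S) (Part s 0 N S') (Part s 0 N S'')).Nonempty := by
    apply Set.nonempty_of_ncard_ne_zero
    have : (Sol 1 1 1 (s * N) (Part s 0 N S) (Part s 0 N S') (Part s 0 N S'')) ≠ 0 := by
      exact_mod_cast h12.ne'
    exact this
  obtain ⟨⟨x, y, z⟩, ⟨hx, hx0, -⟩, ⟨hy, hy0, -⟩, ⟨hz, hz0, -⟩, hsum⟩ := h13
  refine ⟨x, hx, y, hy, z, hz, by exact_mod_cast hx0, by exact_mod_cast hy0, by exact_mod_cast hz0, ?_⟩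
  simp only [one_mul] at hsum
  exact hsum

theorem reduction {k : ℤ} (hk : k % 6 = 1 ∨ k % 6 = 5) {s : ℤ} (hs : s = 1 ∨ s = -1) {a b c i j i' j' : ℕ}
    (ha : 0 < a) (hb : 0 < b) (hc : 0 < c) (habc : 2 ^ i * 3 ^ j * (a + b) = 2 ^ i' * 3 ^ j' * c) {ψ : ℕ → ℝ}
    (hψ : Tendsto ψ atTop (𝓝 0)) (S : Set ℤ) (hS : Invariant k S)
    (h : ∃ᶠ N : ℕ in atTop, (Sol a b (-c) 0 (Part s 0 N Sᶜ) (Part s 0 N Sᶜ) (Part s 0 N Sᶜ) : ℝ) ≤ ψ N * N ^ 2) :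
    ∀ x : ℤ, 0 < s * x → ¬ (3 : ℤ) ∣ x → x ∈ S := by
  intro x hx hx3
  by_contra hcon
  have hSc : Invariant k Sᶜ := fun x => not_congr (hS x)
  have habc' : (2 ^ i * 3 ^ j * (a + b) : ℤ) = 2 ^ i' * 3 ^ j' * c := by exact_mod_cast habc
  obtain ⟨κ, hκ, N0, hN0⟩ := many hk hs ha hb hc hSc hSc hSc (x₀ := x) (y₀ := x) (z₀ := x) hcon hx hx3 hcon hx hx3
    hcon hx hx3 (x₁ := 2 ^ i * 3 ^ j * x) (y₁ := 2 ^ i * 3 ^ j * x) (z₁ := 2 ^ i' * 3 ^ j' * x)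
    ⟨i, j, Int.ModEq.refl _⟩ ⟨i, j, Int.ModEq.refl _⟩ ⟨i', j', Int.ModEq.refl _⟩ (by linear_combination x * habc')
  have h1 : ∀ᶠ N : ℕ in atTop, ψ N < κ := (tendsto_order.1 hψ).2 κ hκ
  obtain ⟨N, h2, h3, h4⟩ := (h.and_eventually (h1.and (eventually_ge_atTop (N0 + 1)))).exists
  have h5 := hN0 N (by omega)
  have hNp : (0 : ℝ) < N := by exact_mod_cast (by omega : 0 < N)
  have h6 : ψ N * (N : ℝ) ^ 2 < κ * N ^ 2 := mul_lt_mul_of_pos_right h3 (by positivity)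
  linarith

theorem evper_inv (k : ℤ) : Invariant k {n | EvPer k n} := by
  intro x
  constructor
  · rintro ⟨m, p, hp, h⟩
    refine ⟨m, p, hp, ?_⟩
    rw [← Function.iterate_succ_apply, ← Function.iterate_succ_apply,
      Function.iterate_succ_apply', Function.iterate_succ_apply', h]
  · rintro ⟨m, p, hp, h⟩
    refine ⟨m + 1, p, hp, ?_⟩
    rw [← Function.iterate_succ_apply, ← Function.iterate_succ_apply] at h
    rw [show m + 1 + p = (m + p).succ by omega]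
    exact h

/-- every nonzero orbit reaches a nonzero number prime to `3` -/
theorem reaches_cop {k : ℤ} (hk : k % 6 = 1 ∨ k % 6 = 5) {x : ℤ} (hx : x ≠ 0) :
    ∃ j : ℕ, (T k)^[j] x ≠ 0 ∧ ¬ (3 : ℤ) ∣ (T k)^[j] x := by
  obtain ⟨e, y, hy, hxy⟩ : ∃ (e : ℕ) (y : ℤ), y % 2 = 1 ∧ x = 2 ^ e * y := by
    obtain ⟨n, hn⟩ : ∃ n : ℕ, n = x.natAbs := ⟨_, rfl⟩
    induction n using Nat.strong_induction_on generalizing x with
    | _ n ih =>
      rcases Int.emod_two_eq_zero_or_one x with h | h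
      · obtain ⟨e, y, hy, hxy⟩ := ih (x / 2).natAbs (by omega) (x := x / 2) (by omega) rfl
        refine ⟨e + 1, y, hy, ?_⟩
        have : x = 2 * (x / 2) := by omega
        rw [this, hxy, pow_succ]
        ring
      · exact ⟨0, x, h, by simp⟩
  refine ⟨e + 1, ?_⟩
  have h1 : (T k)^[e] x = y := by
    rw [hxy]
    exact Td_two_pow k e y
  rw [Function.iterate_succ_apply', h1]
  unfold T
  rw [if_neg (by omega)]
  have h2 : 2 * ((3 * y + k) / 2) = 3 * y + k := by omega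
  constructor <;> omega

theorem final {k : ℤ} (hk : k % 6 = 1 ∨ k % 6 = 5) {a b c i j i' j' : ℕ}
    (ha : 0 < a) (hb : 0 < b) (hc : 0 < c) (habc : 2 ^ i * 3 ^ j * (a + b) = 2 ^ i' * 3 ^ j' * c) {ψ : ℕ → ℝ}
    (hψ : Tendsto ψ atTop (𝓝 0))
    (h : ∀ s : ℤ, (s = 1 ∨ s = -1) → ∃ᶠ N : ℕ in atTop, (Sol a b (-c) 0 (Part s 0 N {x | ¬ EvPer k x})
        (Part s 0 N {x | ¬ EvPer k x}) (Part s 0 N {x | ¬ EvPer k x}) : ℝ) ≤ ψ N * N ^ 2) :
    ∀ x : ℤ, EvPer k x := by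
  have key : ∀ x : ℤ, x ≠ 0 → ¬ (3 : ℤ) ∣ x → EvPer k x := by
    intro x hx hx3
    rcases lt_or_gt_of_ne hx with h0 | h0
    · exact reduction hk (Or.inr rfl) ha hb hc habc hψ {x | EvPer k x} (evper_inv k) (h (-1) (Or.inr rfl)) x (by omega) hx3
    · exact reduction hk (Or.inl rfl) ha hb hc habc hψ {x | EvPer k x} (evper_inv k) (h 1 (Or.inl rfl)) x (by omega) hx3
  intro x
  rcases eq_or_ne x 0 with rfl | hx
  · refine ⟨0, 1, le_rfl, ?_⟩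
    simp [T]
  · obtain ⟨j, h1, h2⟩ := reaches_cop hk hx
    have h3 := key _ h1 h2
    exact (inv_iter (inv_of (evper_inv k)) j x).2 h3

/-- Let `k` be congruent to `1` or `5` modulo `6`.
(A) On each side `s` (`s = 1`: positive, `s = -1`: negative integers) the following holds.
(1) Every bounded function `F` that has the same value at integers congruent modulo `k` whose orbits
are at some time at the same point is orthogonal to the exponential functions of frequency `α` for which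
`k α` is not within `K / N` of an integer, uniformly in `F` and `α`.
(2) Every invariant set has a local density `φ`, a function of the residue modulo `k` which does not
change when the residue is multiplied by `2` or `3`, and the indicator function of the set minus `φ` is
orthogonal to all exponential functions, uniformly in the invariant set and in the frequency.
(3) For all but `ε N` of the `n ≤ N` the number of ways to write `n` as a sum of an element of one and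
an element of another invariant set is the number predicted by the local densities up to `ε N`,
similarly the number of the `x ≤ N` in one invariant set with `x + h` in another for all but
`ε N` of the `h ≤ N`.
(4) Let `x₀`, `y₀`, `z₀` be elements of sign `s` and prime to `3` of three invariant sets. Then every
large integer `n` which is modulo `k` a sum of three numbers agreeing with `x₀`, `y₀`, `z₀` up to factors
`2` and `3` is a sum of three elements of the sets, and `a x + b y = c z` has at least `κ N ^ 2`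
solutions in `[1, N]` with `x`, `y`, `z` in the three sets if it has an integral solution consisting of
numbers which agree modulo `k` with `x₀`, `y₀`, `z₀` up to factors `2` and `3`.
(5) Let `a + b` and `c` be equal up to powers of `2` and `3`, for example `x + y = z` or
`x + y = 2 z`. If for infinitely many `N` all but `o(N ^ 2)` of the solutions of `a x + b y = c z` in
`[1, N]` contain an element of the invariant set `S`, then `S` contains all positive integers prime to `3`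
(the same for the negative integers).
(B) The number of the solutions of `a x + b y + c z = m` in three invariant sets and intervals in
`[1, N]` or `[-N, -1]` is the sum of the products of the local densities over all solutions, up to
`ε N ^ 2`, uniformly in the sets, the intervals, the nonzero coefficients and `m`.
(C) If `a`, `b`, `c` are as in (5) and for both signs for infinitely many `N` all but `o(N ^ 2)` of the
solutions of `a x + b y = c z` in `[1, N]` (respectively `[-N, -1]`) contain an integer with eventually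
periodic orbit, then all orbits of the `3x+k` map are eventually periodic. -/
theorem result (k : ℤ) (hk : k % 6 = 1 ∨ k % 6 = 5) :
    (∀ s : ℤ, (s = 1 ∨ s = -1) →
      (∀ ε : ℝ, 0 < ε → ∃ (K : ℝ) (N₀ : ℕ), ∀ N : ℕ, N₀ ≤ N → ∀ α : ℝ, (∀ j : ℤ, K ≤ |k * α - j| * N) →
        ∀ F : ℤ → ℝ, Synchronous k F → ‖∑ n ∈ Finset.Icc 1 N, (F (s * n) : ℂ) * e (α * n)‖ ≤ ε * N) ∧
      ((∀ S : Set ℤ, Invariant k S → ∃ φ : ℤ → ℝ, LocalDensity k s S φ) ∧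
        (∀ ε : ℝ, 0 < ε → ∃ N₀ : ℕ, ∀ S : Set ℤ, Invariant k S → ∀ φ : ℤ → ℝ, LocalDensity k s S φ →
          ∀ N : ℕ, N₀ ≤ N → ∀ α : ℝ,
          ‖∑ n ∈ Finset.Icc 1 N, ((S.indicator (fun _ => (1 : ℝ)) (s * n) - φ (s * n) : ℝ) : ℂ) * e (α * n)‖ ≤ ε * N)) ∧
      (∀ ε : ℝ, 0 < ε → ∃ N₀ : ℕ, ∀ S S' : Set ℤ, Invariant k S → Invariant k S' →
        ∀ φ φ' : ℤ → ℝ, LocalDensity k s S φ → LocalDensity k s S' φ' → ∀ N : ℕ, N₀ ≤ N →
          ({n : ℕ | 1 ≤ n ∧ n ≤ N ∧ ε * N < |(Rep s n S S' : ℝ) - n * MeanRep k s φ φ' n|}.ncard : ℝ) ≤ ε * N ∧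
          ({h : ℕ | 1 ≤ h ∧ h ≤ N ∧ ε * N < |(Corr s N h S S' : ℝ) - N * MeanCorr k s φ φ' h|}.ncard : ℝ) ≤ ε * N) ∧
      (∀ S S' S'' : Set ℤ, Invariant k S → Invariant k S' → Invariant k S'' → ∀ x₀ y₀ z₀ : ℤ,
        (x₀ ∈ S ∧ 0 < s * x₀ ∧ ¬ (3 : ℤ) ∣ x₀) → (y₀ ∈ S' ∧ 0 < s * y₀ ∧ ¬ (3 : ℤ) ∣ y₀) →
        (z₀ ∈ S'' ∧ 0 < s * z₀ ∧ ¬ (3 : ℤ) ∣ z₀) →
        (∃ N₀ : ℕ, ∀ n : ℕ, N₀ ≤ n →
          (∃ u v w : ℤ, Rel k u x₀ ∧ Rel k v y₀ ∧ Rel k w z₀ ∧ u + v + w ≡ s * n [ZMOD k]) →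
          ∃ x ∈ S, ∃ y ∈ S', ∃ z ∈ S'', 0 < s * x ∧ 0 < s * y ∧ 0 < s * z ∧ x + y + z = s * n) ∧
        (∀ a b c : ℕ, 0 < a → 0 < b → 0 < c →
          (∃ u v w : ℤ, Rel k u x₀ ∧ Rel k v y₀ ∧ Rel k w z₀ ∧ a * u + b * v = c * w) →
          ∃ κ : ℝ, 0 < κ ∧ ∃ N₀ : ℕ, ∀ N : ℕ, N₀ ≤ N →
          κ * N ^ 2 ≤ Sol a b (-c) 0 (Part s 0 N S) (Part s 0 N S') (Part s 0 N S''))) ∧
      (∀ a b c i j i' j' : ℕ, 0 < a → 0 < b → 0 < c → 2 ^ i * 3 ^ j * (a + b) = 2 ^ i' * 3 ^ j' * c →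
        ∀ ψ : ℕ → ℝ, Tendsto ψ atTop (𝓝 0) → ∀ S : Set ℤ, Invariant k S →
        (∃ᶠ N : ℕ in atTop, (Sol a b (-c) 0 (Part s 0 N Sᶜ) (Part s 0 N Sᶜ) (Part s 0 N Sᶜ) : ℝ) ≤ ψ N * N ^ 2) →
        ∀ x : ℤ, 0 < s * x → ¬ (3 : ℤ) ∣ x → x ∈ S)) ∧
    (∀ s t v : ℤ, (s = 1 ∨ s = -1) → (t = 1 ∨ t = -1) → (v = 1 ∨ v = -1) → ∀ ε : ℝ, 0 < ε → ∃ N₀ : ℕ,
      ∀ S S' S'' : Set ℤ, Invariant k S → Invariant k S' → Invariant k S'' →
        ∀ φ φ' φ'' : ℤ → ℝ, LocalDensity k s S φ → LocalDensity k t S' φ' → LocalDensity k v S'' φ'' →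
        ∀ N : ℕ, N₀ ≤ N → ∀ N₁ N₂ N₃ : ℕ, N₁ ≤ N → N₂ ≤ N → N₃ ≤ N →
        ∀ M₁ M₂ M₃ : ℕ, M₁ ≤ N₁ → M₂ ≤ N₂ → M₃ ≤ N₃ → ∀ a b c m : ℤ, a ≠ 0 → b ≠ 0 → c ≠ 0 →
        |(Sol a b c m (Part s M₁ N₁ S) (Part t M₂ N₂ S') (Part v M₃ N₃ S'') : ℝ)
          - ∑ᶠ p ∈ SolSet a b c m (Part s M₁ N₁ Set.univ) (Part t M₂ N₂ Set.univ) (Part v M₃ N₃ Set.univ),
            φ p.1 * φ' p.2.1 * φ'' p.2.2| ≤ ε * N ^ 2) ∧
    (∀ a b c i j i' j' : ℕ, 0 < a → 0 < b → 0 < c → 2 ^ i * 3 ^ j * (a + b) = 2 ^ i' * 3 ^ j' * c →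
      ∀ ψ : ℕ → ℝ, Tendsto ψ atTop (𝓝 0) →
      (∀ s : ℤ, (s = 1 ∨ s = -1) → ∃ᶠ N : ℕ in atTop, (Sol a b (-c) 0 (Part s 0 N {x | ¬ EvPer k x})
        (Part s 0 N {x | ¬ EvPer k x}) (Part s 0 N {x | ¬ EvPer k x}) : ℝ) ≤ ψ N * N ^ 2) →
      ∀ x : ℤ, EvPer k x) := by
  have hodd : Odd k := by rw [Int.odd_iff]; omega
  have hk3 : ¬ (3 : ℤ) ∣ k := by omega
  refine ⟨fun s hs => ⟨?_, ⟨?_, ?_⟩, ?_, ?_, ?_⟩, ?_, ?_⟩
  · intro ε hε
    obtain ⟨K, hK, N1, hN1, h1⟩ := fourier (side_odd hodd hs) (side_cop (cop_of_not_dvd hk3) hs)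
      (show 0 < min ε 1 from lt_min hε one_pos) (min_le_right _ _)
    refine ⟨K, N1, fun N hN α hα F hF => ?_⟩
    have hnat : (s * k).natAbs = k.natAbs := by
      rw [Int.natAbs_mul]; rcases hs with rfl | rfl <;> simp
    rw [hnat] at h1
    have hα' : K ≤ |α * (k.natAbs : ℝ) - round (α * (k.natAbs : ℝ))| * N := by
      have hcast : ((k.natAbs : ℕ) : ℝ) = |(k : ℝ)| := by
        rw [Nat.cast_natAbs, Int.cast_abs]
      rcases abs_choice (k : ℝ) with h2 | h2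
      · have := hα (round (α * (k.natAbs : ℝ)))
        rw [hcast, h2] at this ⊢
        rwa [mul_comm (k : ℝ) α] at this
      · have := hα (-(round (α * (k.natAbs : ℝ))))
        rw [hcast, h2] at this ⊢
        have e1 : |(k : ℝ) * α - ((-(round (α * -(k : ℝ))) : ℤ) : ℝ)| = |α * -(k : ℝ) - (round (α * -(k : ℝ)) : ℝ)| := by
          rw [← abs_neg]
          congr 1
          push_cast
          ring
        rwa [e1] at this
    have h2 := h1 N hN α hα' _ (synchronous_same hodd hs hF)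
    rw [← sum_EE] at h2
    refine h2.trans ?_
    exact mul_le_mul_of_nonneg_right (min_le_left _ _) (Nat.cast_nonneg _)
  · intro S hS
    exact exists_local hk hs hS
  · intro ε hε
    obtain ⟨N0, hN0, h1⟩ := fourier_inv hk hs (show 0 < min ε 1 from lt_min hε one_pos) (min_le_right _ _)
    refine ⟨N0, fun S hS φ hφ N hN α => ?_⟩
    have h2 := h1 S (inv_of hS) φ (local_phi hs hφ) N hN α
    rw [← sum_EE] at h2
    have e1 : ∑ n ∈ Finset.Icc 1 N, ((S.indicator (fun _ => (1 : ℝ)) (s * n) - φ (s * n) : ℝ) : ℂ) * e (α * n) =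
        ∑ n ∈ Finset.Icc 1 N, (balD s S φ (n : ℕ) : ℂ) * e (α * n) := by
      apply Finset.sum_congr rfl
      intro n _
      unfold balD ind
      by_cases h : s * (n : ℤ) ∈ S
      · rw [Set.indicator_of_mem h, if_pos h]
      · rw [Set.indicator_of_notMem h, if_neg h]
    rw [e1]
    refine h2.trans ?_
    exact mul_le_mul_of_nonneg_right (min_le_left _ _) (Nat.cast_nonneg _)
  · intro ε hε
    obtain ⟨N0, hN0, h1⟩ := two_sum hk hs (show 0 < min ε 1 from lt_min hε one_pos) (min_le_right _ _)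
    obtain ⟨N1, hN1, h1'⟩ := shifts hk hs (show 0 < min ε 1 from lt_min hε one_pos) (min_le_right _ _)
    refine ⟨N0 + N1, fun S S' hS hS' φ φ' hφ hφ' N hN => ⟨?_, ?_⟩⟩
    · have h3 := h1 S S' (inv_of hS) (inv_of hS') φ φ' (local_phi hs hφ) (local_phi hs hφ') N (by omega)
      have hN' : (0 : ℝ) ≤ N := Nat.cast_nonneg _
      refine le_trans ?_ (h3.trans (mul_le_mul_of_nonneg_right (min_le_left _ _) hN'))
      norm_cast
      apply Set.ncard_le_ncard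
      · rintro n ⟨a1, a2, a3⟩
        refine ⟨a1, a2, lt_of_le_of_lt ?_ a3⟩
        exact mul_le_mul_of_nonneg_right (min_le_left _ _) hN'
      · apply (Set.finite_Icc 1 N).subset
        rintro n ⟨a1, a2, -⟩
        exact ⟨a1, a2⟩
    · have h3 := h1' S S' (inv_of hS) (inv_of hS') φ φ' (local_phi hs hφ) (local_phi hs hφ') N (by omega)
      have hN' : (0 : ℝ) ≤ N := Nat.cast_nonneg _
      refine le_trans ?_ (h3.trans (mul_le_mul_of_nonneg_right (min_le_left _ _) hN'))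
      norm_cast
      apply Set.ncard_le_ncard
      · rintro n ⟨a1, a2, a3⟩
        refine ⟨a1, a2, lt_of_le_of_lt ?_ a3⟩
        exact mul_le_mul_of_nonneg_right (min_le_left _ _) hN'
      · apply (Set.finite_Icc 1 N).subset
        rintro n ⟨a1, a2, -⟩
        exact ⟨a1, a2⟩
  · intro S S' S'' hS hS' hS'' x₀ y₀ z₀ hx hy hz
    refine ⟨three hk hs hS hS' hS'' hx.1 hx.2.1 hx.2.2 hy.1 hy.2.1 hy.2.2 hz.1 hz.2.1 hz.2.2, ?_⟩
    rintro a b c ha hb hc ⟨u, v, w, r1, r2, r3, r4⟩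
    exact many hk hs ha hb hc hS hS' hS'' hx.1 hx.2.1 hx.2.2 hy.1 hy.2.1 hy.2.2 hz.1 hz.2.1 hz.2.2 r1 r2 r3 r4
  · intro a b c i j i' j' ha hb hc habc ψ hψ S hS h
    exact reduction hk hs ha hb hc habc hψ S hS h
  · intro s t v hs ht hv ε hε
    obtain ⟨N0, hN0, H⟩ := linear hk hs ht hv hε
    exact ⟨N0, H⟩
  · intro a b c i j i' j' ha hb hc habc ψ hψ h
    exact final hk ha hb hc habc hψ h

end Pool.Agent.Results.MP_7f88e4_nt.FourierStructure
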