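import Pool.Agent.W36.GL.L5

set_option autoImplicit false

/-!
Gowers uniformity of all orders for the invariant sets of the `3x+k` maps, for every `k` prime to `6`.

The indicator function of an invariant set, minus its local density (a function of the residue modulo
`k` which does not change when the residue is multiplied by `2` or `3`), has small Gowers norms of
every order on all long intervals, uniformly in the set. So it is orthogonal to all polynomial
phases, and the numbers of the points of a box at which the forms of a system of pairwise independent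
affine linear forms have values in given invariant sets (for example basins of cycles) are those
predicted by the local densities modulo `k`. This includes the arithmetic progressions of all lengths.
All orbits are eventually periodic if for some system of forms almost all points have a coordinate
of the image with eventually periodic orbit.
-/

namespace Pool.Agent.Results.MP_7f88e4_nt.GowersStructure

open Filter Topology

/-- the `3x+k` map on the integers -/
def T (k x : ℤ) : ℤ := if x % 2 = 0 then x / 2 else (3 * x + k) / 2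

/-- the orbit of `n` is eventually periodic -/
def EvPer (k n : ℤ) : Prop := ∃ m p : ℕ, 1 ≤ p ∧ (T k)^[m + p] n = (T k)^[m] n

/-- `S` is invariant under the `3x+k` map and its inverse -/
def Invariant (k : ℤ) (S : Set ℤ) : Prop := ∀ x : ℤ, x ∈ S ↔ T k x ∈ S

/-- `a` and `b` agree modulo `k` up to a factor `2 ^ i * 3 ^ j`. -/
def Rel (k a b : ℤ) : Prop := ∃ i j : ℕ, a ≡ 2 ^ i * 3 ^ j * b [ZMOD k]

/-- `φ` gives the densities of `S`, on the side `s`, relative to the classes modulo `k`: it has values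
in `[0, 1]`, it depends only on the residue modulo `k` up to factors `2` and `3`, the elements of `S`
which are congruent to `a` modulo `k` have natural density `φ a / |k|` on the side `s`, and `φ a` is
positive if `S` has an element of sign `s` prime to `3` in a class related to that of `a`. -/
def LocalDensity (k s : ℤ) (S : Set ℤ) (φ : ℤ → ℝ) : Prop :=
  (∀ a : ℤ, 0 ≤ φ a ∧ φ a ≤ 1) ∧ (∀ a b : ℤ, Rel k a b → φ a = φ b) ∧
  (∀ a : ℤ, Tendsto (fun N : ℕ => ({n : ℤ | 0 < s * n ∧ s * n ≤ N ∧ n ∈ S ∧ n ≡ a [ZMOD k]}.ncard : ℝ) / N)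
    atTop (𝓝 (φ a / k.natAbs))) ∧
  (∀ a x : ℤ, x ∈ S → 0 < s * x → ¬ (3 : ℤ) ∣ x → Rel k a x → 0 < φ a)

/-- `exp (2 π i θ)` -/
noncomputable def e (θ : ℝ) : ℂ := Complex.exp (2 * Real.pi * θ * Complex.I)

/-- The indicator function of `S` at the integers of sign `s`, minus `φ`, restricted to absolute
values in `(M, N]`. -/
noncomputable def Balanced (s : ℤ) (S : Set ℤ) (φ : ℤ → ℝ) (M N : ℕ) (n : ℤ) : ℝ :=
  if (M : ℤ) < n ∧ n ≤ N then S.indicator (fun _ => (1 : ℝ)) (s * n) - φ (s * n) else 0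

/-- For a function supported in `[1, X]`, the `2 ^ m`-th power of its Gowers norm of order `m`, not
normalised: the sum over `n` in `[1, X]` and `t₁, ..., tₘ` in `[-X, X]` of the product of the values at the
`2 ^ m` vertices `n + ω₁ t₁ + ... + ωₘ tₘ` with `ω` in `{0, 1} ^ m`. -/
noncomputable def Gowers : ℕ → (ℤ → ℝ) → ℕ → ℝ
  | 0, F, X => ∑ n ∈ Finset.Icc (1 : ℤ) X, F n
  | m + 1, F, X => ∑ t ∈ Finset.Icc (-(X : ℤ)) X, Gowers m (fun n => F n * F (n + t)) X

/-- The points `x` with integral coordinates of the box `∏ (P j, P' j]` such that, for every `i`,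
the value `Λ i • x + c i` of the `i`-th form is in `S i`, has sign `s i`, and its absolute value is
in `(M i, N i]`. -/
def PointSet {D r : ℕ} (Λ : Fin r → Fin D → ℤ) (c s : Fin r → ℤ) (M N : Fin r → ℕ) (P P' : Fin D → ℤ)
    (S : Fin r → Set ℤ) : Set (Fin D → ℤ) :=
  {x : Fin D → ℤ | (∀ j, P j < x j ∧ x j ≤ P' j) ∧ ∀ i, (∑ j, Λ i j * x j + c i) ∈ S i ∧
    (M i : ℤ) < s i * (∑ j, Λ i j * x j + c i) ∧ s i * (∑ j, Λ i j * x j + c i) ≤ N i}

/-- The number of these points. -/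
noncomputable def Points {D r : ℕ} (Λ : Fin r → Fin D → ℤ) (c s : Fin r → ℤ) (M N : Fin r → ℕ) (P P' : Fin D → ℤ)
    (S : Fin r → Set ℤ) : ℕ := (PointSet Λ c s M N P P' S).ncard

open Pool.Agent.W41 Pool.Agent.H499R2.ND Pool.Agent.H499R2.CO Pool.Agent.W41.FU Pool.Agent.W36.FD
  Pool.Agent.W36.GU Pool.Agent.W36.GV Pool.Agent.W36.GK Pool.Agent.W36.GL

theorem inv_of {k : ℤ} {S : Set ℤ} (hS : Invariant k S) : Inv k S := hS

theorem dens_iff {k s : ℤ} (hs : s = 1 ∨ s = -1) {S : Set ℤ} {φ : ℤ → ℝ} :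
    DD s S k.natAbs (fun c => φ c / (k.natAbs : ℝ)) ↔
    (∀ a : ℤ, Tendsto (fun N : ℕ => ({n : ℤ | 0 < s * n ∧ s * n ≤ N ∧ n ∈ S ∧ n ≡ a [ZMOD k]}.ncard : ℝ) / N)
      atTop (𝓝 (φ a / k.natAbs))) := by
  have e1 : ∀ (a : ℤ) (N : ℕ), {n : ℤ | 0 < s * n ∧ s * n ≤ N ∧ n ∈ S ∧ n ≡ a [ZMOD k]}.ncard
      = cA s S k.natAbs a N := by
    intro a N
    rw [← cA_ncard hs]
    congr 1
    ext n
    have : n ≡ a [ZMOD k] ↔ n ≡ a [ZMOD (k.natAbs : ℤ)] := by
      rw [Int.modEq_iff_dvd, Int.modEq_iff_dvd, Int.natAbs_dvd]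
    simp only [Set.mem_ofPred_eq, this]
  simp only [e1]
  rfl

theorem local_phi {k s : ℤ} (hs : s = 1 ∨ s = -1) {S : Set ℤ} {φ : ℤ → ℝ} (h : LocalDensity k s S φ) :
    IsPhi k s S φ := ⟨h.1, h.2.1, (dens_iff hs).2 h.2.2.1⟩

theorem exists_local {k : ℤ} (hk : k % 6 = 1 ∨ k % 6 = 5) {s : ℤ} (hs : s = 1 ∨ s = -1) {S : Set ℤ}
    (hS : Invariant k S) : ∃ φ : ℤ → ℝ, LocalDensity k s S φ := by
  obtain ⟨φ, ⟨h1, h2, h3⟩, h4⟩ := exists_phi hk hs (inv_of hS)
  exact ⟨φ, h1, h2, (dens_iff hs).1 h3, h4⟩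

theorem bal_eq (s : ℤ) (S : Set ℤ) (φ : ℤ → ℝ) (M N : ℕ) : Balanced s S φ M N = win M N (balD s S φ) := by
  ext n
  unfold Balanced win balD ind
  by_cases h : s * n ∈ S
  · rw [Set.indicator_of_mem h, if_pos h]
  · rw [Set.indicator_of_notMem h, if_neg h]

theorem Gowers_eq (m : ℕ) : ∀ (F : ℤ → ℝ) (X : ℕ), Gowers m F X = GN m F X := by
  induction m with
  | zero => intro F X; rfl
  | succ m ih =>
    intro F X
    rw [Gowers, GN]
    apply Finset.sum_congr rfl
    intro t _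
    rw [ih]
    rfl

/-- many points -/
theorem many {k : ℤ} (hk : k % 6 = 1 ∨ k % 6 = 5) {D r : ℕ} {Λ : Fin r → Fin D → ℤ}
    (hΛ : ∀ i j, i ≠ j → ∀ a b : ℤ, a • Λ i = b • Λ j → a = 0 ∧ b = 0) {s : ℤ} (hs : s = 1 ∨ s = -1)
    {v : Fin D → ℤ} (hv : ∀ i, 0 < s * ∑ j, Λ i j * v j) {S : Fin r → Set ℤ} (hS : ∀ i, Invariant k (S i))
    (hne : ∀ i, ∃ x ∈ S i, 0 < s * x ∧ ¬ (3 : ℤ) ∣ x ∧ Rel k (∑ j, Λ i j * v j) x) : ∃ κ : ℝ, 0 < κ ∧ ∃ N₀ : ℕ, ∀ N : ℕ, N₀ ≤ N →
      κ * N ^ D ≤ Points Λ 0 (fun _ => s) (fun _ => 0) (fun _ => N) (fun _ => -(N : ℤ)) (fun _ => (N : ℤ)) S := by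
  choose φ hφ using fun i => exists_local hk hs (hS i)
  refine many_ptsD (by omega) (fun s hs => BD_sm hk hs (r + 1)) Λ hΛ v hs hv (fun i => inv_of (hS i))
    (fun i => local_phi hs (hφ i)) (fun i => ?_)
  obtain ⟨x, h1, h2, h3, h4⟩ := hne i
  exact (hφ i).2.2.2 _ x h1 h2 h3 h4

theorem reduction {k : ℤ} (hk : k % 6 = 1 ∨ k % 6 = 5) {D r : ℕ} {Λ : Fin r → Fin D → ℤ}
    (hΛ : ∀ i j, i ≠ j → ∀ a b : ℤ, a • Λ i = b • Λ j → a = 0 ∧ b = 0)
    {v : Fin D → ℤ} (hv : ∀ i, ∃ a b : ℕ, ∑ j, Λ i j * v j = 2 ^ a * 3 ^ b) {s : ℤ} (hs : s = 1 ∨ s = -1)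
    {ψ : ℕ → ℝ} (hψ : Tendsto ψ atTop (𝓝 0)) {S : Set ℤ} (hS : Invariant k S) (h : ∃ᶠ N : ℕ in atTop,
      (Points Λ 0 (fun _ => s) (fun _ => 0) (fun _ => N) (fun _ => -(N : ℤ)) (fun _ => (N : ℤ)) (fun _ => Sᶜ) : ℝ) ≤ ψ N * N ^ D) :
    ∀ x : ℤ, 0 < s * x → ¬ (3 : ℤ) ∣ x → x ∈ S := by
  intro x hx hx3
  by_contra hcon
  have hSc : Invariant k Sᶜ := fun x => not_congr (hS x)
  have e1 : ∀ i, ∑ j, Λ i j * (v j * x) = (∑ j, Λ i j * v j) * x := by
    intro i
    rw [Finset.sum_mul]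
    apply Finset.sum_congr rfl; intro j _; ring
  obtain ⟨κ, hκ, N0, hN0⟩ := many hk hΛ hs (v := fun j => v j * x) (by
    intro i
    rw [e1]
    obtain ⟨a, b, hab⟩ := hv i
    rw [hab]
    have : s * (2 ^ a * 3 ^ b * x) = 2 ^ a * 3 ^ b * (s * x) := by ring
    rw [this]
    positivity) (S := fun _ => Sᶜ) (fun _ => hSc) (fun i => ⟨x, hcon, hx, hx3, by
      rw [e1]
      obtain ⟨a, b, hab⟩ := hv i
      rw [hab]
      exact ⟨a, b, Int.ModEq.refl _⟩⟩)
  have h1 : ∀ᶠ N : ℕ in atTop, ψ N < κ := (tendsto_order.1 hψ).2 κ hκ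
  obtain ⟨N, h2, h3, h4⟩ := (h.and_eventually (h1.and (eventually_ge_atTop (N0 + 1)))).exists
  have h5 := hN0 N (by omega)
  have hNp : (0 : ℝ) < N := by exact_mod_cast (by omega : 0 < N)
  have h6 : ψ N * (N : ℝ) ^ D < κ * N ^ D := mul_lt_mul_of_pos_right h3 (by positivity)
  linarith

theorem evper_inv (k : ℤ) : Invariant k {n | EvPer k n} := by
  intro x
  constructor
  · rintro ⟨m, p, hp, h⟩
    refine ⟨m, p, hp, ?_⟩
    rw [← Function.iterate_succ_apply, ← Function.iterate_succ_apply,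
      Function.iterate_succ_apply', Function.iterate_succ_apply', h]
  · rintro ⟨m, p, hp, h⟩
    refine ⟨m + 1, p, hp, ?_⟩
    rw [← Function.iterate_succ_apply, ← Function.iterate_succ_apply] at h
    rw [show m + 1 + p = (m + p).succ by omega]
    exact h

/-- every nonzero orbit reaches a nonzero number prime to `3` -/
theorem reaches_cop {k : ℤ} (hk : k % 6 = 1 ∨ k % 6 = 5) {x : ℤ} (hx : x ≠ 0) :
    ∃ j : ℕ, (T k)^[j] x ≠ 0 ∧ ¬ (3 : ℤ) ∣ (T k)^[j] x := by
  obtain ⟨e, y, hy, hxy⟩ : ∃ (e : ℕ) (y : ℤ), y % 2 = 1 ∧ x = 2 ^ e * y := by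
    obtain ⟨n, hn⟩ : ∃ n : ℕ, n = x.natAbs := ⟨_, rfl⟩
    induction n using Nat.strong_induction_on generalizing x with
    | _ n ih =>
      rcases Int.emod_two_eq_zero_or_one x with h | h
      · obtain ⟨e, y, hy, hxy⟩ := ih (x / 2).natAbs (by omega) (x := x / 2) (by omega) rfl
        refine ⟨e + 1, y, hy, ?_⟩
        have : x = 2 * (x / 2) := by omega
        rw [this, hxy, pow_succ]
        ring
      · exact ⟨0, x, h, by simp⟩
  refine ⟨e + 1, ?_⟩
  have h1 : (T k)^[e] x = y := by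
    rw [hxy]
    exact Td_two_pow k e y
  rw [Function.iterate_succ_apply', h1]
  unfold T
  rw [if_neg (by omega)]
  have h2 : 2 * ((3 * y + k) / 2) = 3 * y + k := by omega
  constructor <;> omega

/-- Let `k` be congruent to `1` or `5` modulo `6`. Every invariant set has a local density `φ` on each side.
(A) Uniformly in the invariant set `S` with local density `φ` on the side `s`: the function `1_S - φ`
has small Gowers norms of every order on all intervals `(M, N']` with `N' ≤ N`; it is orthogonal to all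
polynomial phases of given degree on these intervals.
(B) For every system of pairwise independent affine linear forms in `D` variables, the number of the
points of a box of size `N` at which the forms have values in given invariant sets and in given
intervals of given signs is the sum of the products of the local densities of the sets at the values of
the forms over all points of the box at which the values are in the intervals, up to `ε N ^ D`,
uniformly in the sets, the constant terms, the box and the intervals.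
(C) Suppose that at some point `v` the pairwise independent linear forms have values of sign `s` which
agree modulo `k`, up to factors `2` and `3`, with elements of sign `s` and prime to `3` of given
invariant sets. Then at least `κ N ^ D` of the points of size at most `N` are such that the values of
the forms are of sign `s`, of size at most `N`, and in these sets.
(D) Suppose that the values of the forms at some point are products of powers of `2` and `3` (for
example `1`). (1) If for infinitely many `N`, up to `o(N ^ D)` exceptions, all points of size at most `N` at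
which the values are of sign `s` and size at most `N` are such that some value is in the invariant set
`S`, then `S` contains all integers of sign `s` prime to `3`. (2) If this holds for both signs for the
set of the integers with eventually periodic orbit, then all orbits are eventually periodic. -/
theorem result (k : ℤ) (hk : k % 6 = 1 ∨ k % 6 = 5) :
    (∀ s : ℤ, (s = 1 ∨ s = -1) → (∀ S : Set ℤ, Invariant k S → ∃ φ : ℤ → ℝ, LocalDensity k s S φ) ∧
      ∀ m : ℕ, ∀ ε : ℝ, 0 < ε → ∃ N₀ : ℕ, ∀ S : Set ℤ, Invariant k S → ∀ φ : ℤ → ℝ, LocalDensity k s S φ →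
      ∀ N : ℕ, N₀ ≤ N → ∀ M N' : ℕ, M ≤ N' → N' ≤ N →
        Gowers (m + 1) (Balanced s S φ M N') N ≤ ε * N ^ (m + 2) ∧
        ∀ P : Polynomial ℝ, P.natDegree ≤ m →
          ‖∑ n ∈ Finset.Ioc M N', ((S.indicator (fun _ => (1 : ℝ)) (s * n) - φ (s * n) : ℝ) : ℂ) * e (P.eval (n : ℝ))‖ ≤ ε * N) ∧
    (∀ (D r : ℕ) (Λ : Fin r → Fin D → ℤ), (∀ i, Λ i ≠ 0) → (∀ i j, i ≠ j → ∀ a b : ℤ, a • Λ i = b • Λ j → a = 0 ∧ b = 0) →
      ∀ s : Fin r → ℤ, (∀ i, s i = 1 ∨ s i = -1) → ∀ ε : ℝ, 0 < ε → ∃ N₀ : ℕ, ∀ S : Fin r → Set ℤ, (∀ i, Invariant k (S i)) →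
      ∀ φ : Fin r → ℤ → ℝ, (∀ i, LocalDensity k (s i) (S i) (φ i)) → ∀ N : ℕ, N₀ ≤ N → ∀ c : Fin r → ℤ,
      ∀ M N' : Fin r → ℕ, (∀ i, M i ≤ N' i) → (∀ i, N' i ≤ N) → ∀ P P' : Fin D → ℤ, (∀ j, P' j - P j ≤ N) →
        |(Points Λ c s M N' P P' S : ℝ)
          - ∑ᶠ x ∈ PointSet Λ c s M N' P P' (fun _ => Set.univ), ∏ i, φ i (∑ j, Λ i j * x j + c i)| ≤ ε * N ^ D) ∧
    (∀ (D r : ℕ) (Λ : Fin r → Fin D → ℤ), (∀ i j, i ≠ j → ∀ a b : ℤ, a • Λ i = b • Λ j → a = 0 ∧ b = 0) →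
      ∀ s : ℤ, (s = 1 ∨ s = -1) → ∀ v : Fin D → ℤ, (∀ i, 0 < s * ∑ j, Λ i j * v j) →
      ∀ S : Fin r → Set ℤ, (∀ i, Invariant k (S i)) →
        (∀ i, ∃ x ∈ S i, 0 < s * x ∧ ¬ (3 : ℤ) ∣ x ∧ Rel k (∑ j, Λ i j * v j) x) →
        ∃ κ : ℝ, 0 < κ ∧ ∃ N₀ : ℕ, ∀ N : ℕ, N₀ ≤ N →
          κ * N ^ D ≤ Points Λ 0 (fun _ => s) (fun _ => 0) (fun _ => N) (fun _ => -(N : ℤ)) (fun _ => (N : ℤ)) S) ∧
    (∀ (D r : ℕ) (Λ : Fin r → Fin D → ℤ), (∀ i j, i ≠ j → ∀ a b : ℤ, a • Λ i = b • Λ j → a = 0 ∧ b = 0) →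
      (∃ v : Fin D → ℤ, ∀ i, ∃ a b : ℕ, ∑ j, Λ i j * v j = 2 ^ a * 3 ^ b) → ∀ ψ : ℕ → ℝ, Tendsto ψ atTop (𝓝 0) →
      (∀ s : ℤ, (s = 1 ∨ s = -1) → ∀ S : Set ℤ, Invariant k S →
        (∃ᶠ N : ℕ in atTop,
          (Points Λ 0 (fun _ => s) (fun _ => 0) (fun _ => N) (fun _ => -(N : ℤ)) (fun _ => (N : ℤ)) (fun _ => Sᶜ) : ℝ) ≤ ψ N * N ^ D) →
        ∀ x : ℤ, 0 < s * x → ¬ (3 : ℤ) ∣ x → x ∈ S) ∧
      ((∀ s : ℤ, (s = 1 ∨ s = -1) → ∃ᶠ N : ℕ in atTop,
          (Points Λ 0 (fun _ => s) (fun _ => 0) (fun _ => N) (fun _ => -(N : ℤ)) (fun _ => (N : ℤ))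
            (fun _ => {x | ¬ EvPer k x}) : ℝ) ≤ ψ N * N ^ D) →
        ∀ x : ℤ, EvPer k x)) := by
  refine ⟨fun s hs => ⟨fun S hS => exists_local hk hs hS, fun m ε hε => ?_⟩, fun D r Λ h0 hΛ s hs ε hε => ?_,
    fun D r Λ hΛ s hs v hv S hS hne => many hk hΛ hs hv hS hne, fun D r Λ hΛ hv ψ hψ => ⟨?_, ?_⟩⟩
  · obtain ⟨N1, h1⟩ := BD_sm hk hs (m + 1) ε hε
    obtain ⟨N2, h2⟩ := poly_orthD (F := BD k s) (fun f hf => BD_abs hf) (k := m) (BD_sm hk hs (m + 1)) hε
    refine ⟨N1 + N2, fun S hS φ hφ N hN M N' hM hN' => ?_⟩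
    have hmem : balD s S φ ∈ BD k s := ⟨S, inv_of hS, φ, local_phi hs hφ, rfl⟩
    refine ⟨?_, fun P hP => ?_⟩
    · rw [Gowers_eq, bal_eq]
      exact h1 N (by omega) _ hmem M N' hM hN'
    · have h3 := h2 N (by omega) _ hmem M N' hM hN' P hP
      have e1 : ∑ n ∈ Finset.Ioc M N', ((S.indicator (fun _ => (1 : ℝ)) (s * n) - φ (s * n) : ℝ) : ℂ) * e (P.eval (n : ℝ))
          = ∑ n ∈ Finset.Ioc M N', (balD s S φ (n : ℕ) : ℂ) * ex (P.eval (n : ℝ)) := by
        apply Finset.sum_congr rfl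
        intro n _
        unfold e ex balD ind
        by_cases h : s * (n : ℤ) ∈ S
        · rw [Set.indicator_of_mem h, if_pos h]
        · rw [Set.indicator_of_notMem h, if_neg h]
      rw [e1]
      exact h3
  · obtain ⟨N0, h1⟩ := countD (d := k) (fun s hs => BD_sm hk hs (r + 1)) Λ h0 hΛ hs hε
    refine ⟨N0, fun S hS φ hφ N hN c M N' hM hN' P P' hP => ?_⟩
    have h2 := h1 S (fun i => inv_of (hS i)) φ (fun i => local_phi (hs i) (hφ i)) N hN c M N' hM hN' P P' hP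
    rw [Wn_eq Λ c hs] at h2
    exact h2
  · obtain ⟨v, hv⟩ := hv
    intro s hs S hS h
    exact reduction hk hΛ hv hs hψ hS h
  · obtain ⟨v, hv⟩ := hv
    intro h
    have key : ∀ x : ℤ, x ≠ 0 → ¬ (3 : ℤ) ∣ x → EvPer k x := by
      intro x hx hx3
      rcases lt_or_gt_of_ne hx with h0 | h0
      · exact reduction hk hΛ hv (Or.inr rfl) hψ (evper_inv k) (h (-1) (Or.inr rfl)) x (by omega) hx3
      · exact reduction hk hΛ hv (Or.inl rfl) hψ (evper_inv k) (h 1 (Or.inl rfl)) x (by omega) hx3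
    intro x
    rcases eq_or_ne x 0 with rfl | hx
    · refine ⟨0, 1, le_rfl, ?_⟩
      simp [T]
    · obtain ⟨j, h1, h2⟩ := reaches_cop hk hx
      have h3 := key _ h1 h2
      exact (inv_iter (inv_of (evper_inv k)) j x).2 h3

end Pool.Agent.Results.MP_7f88e4_nt.GowersStructure
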